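import Mathlib
import Pool.Agent.BdrySing.Defs
import Pool.Agent.BdrySing.Build

/-!
# A mass-minimizing current in `ℝ⁴` with a Cantor set of genuine boundary singularities

`m = 2`, `Σ = ℝ⁴ = ℂ²`.  Let `E` be a self-similar Cantor set on the unit circle, `N` the union of
its complementary arcs of even level, and `h` a holomorphic function on the unit disc, smooth up to
the circle, vanishing exactly on `E` and flat there.  The function `1_N h` on the circle is smooth;
write it as `B - g` with `B` holomorphic inside and `g` holomorphic outside the circle.  The current
`T` is the sum of the graphs of `B` and `B - h` over the unit disc and of the graph of `g` over the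
annulus `1 < |z| < 2`.  It is calibrated by the Kähler form, and its boundary is the sum of two
disjoint smooth closed curves: the graph over the circle of `B` on the arcs in `N` and of `B - h`
off `N`, and the graph of `g` over `|z| = 2`.  Every point over `E` is a genuine boundary
singularity, and `E` has Hausdorff dimension at least `1/4`.
-/

namespace Pool.Agent.Results.MP_08407f_an.GenuineCantorSet

open BdrySing
open scoped ENNReal

/-- There is a mass-minimizing two-dimensional integer rectifiable current `T` in `ℝ⁴` whose
boundary is a finite union of disjoint smooth closed embedded curves and whose set of genuine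
boundary singularities has Hausdorff dimension at least `1/4 > 0 = m - 2`. -/
theorem result : ∃ (n : ℕ) (γ : Fin n → ℝ → C2) (T : Form C2 2 → ℝ),
    IsClosedCurves γ ∧ IsMinimizing T γ ∧ (1 / 4 : ℝ≥0∞) ≤ dimH (genuine T γ) :=
  BdrySing.main

end Pool.Agent.Results.MP_08407f_an.GenuineCantorSet
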